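import Pool.Agent.L7h4.SF.Stm

/-! Project SF (helper4, MP_2a1f98_al): part SIM. -/

set_option autoImplicit false

namespace Pool.Agent.L7h60.SF

open Matrix Pool.Agent.L7h4.SF

theorem norm_form (u p : Fin 3 → ℂ) (hu : u ≠ 0) (hp : p ≠ 0) :
    ∃ M : Matrix (Fin 3) (Fin 3) ℂ, M.det ≠ 0 ∧ M 0 = p ∧ M *ᵥ u = ![p ⬝ᵥ u, 1, 0] := by
  have hdot : ∀ v w : Fin 3 → ℂ, v ⬝ᵥ w = v 0 * w 0 + v 1 * w 1 + v 2 * w 2 := by
    intro v w
    simp [dotProduct, Fin.sum_univ_three]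
  obtain ⟨q, hq1, hq2⟩ : ∃ q : Fin 3 → ℂ, q ⬝ᵥ u = 1 ∧ (p ⬝ᵥ u) • q ≠ p := by
    obtain ⟨i, hi⟩ : ∃ i, u i ≠ 0 := by
      by_contra h
      push Not at h
      exact hu (funext h)
    have hq0 : (Pi.single i (u i)⁻¹ : Fin 3 → ℂ) ⬝ᵥ u = 1 := by
      rw [single_dotProduct, inv_mul_cancel₀ hi]
    by_cases h0 : (p ⬝ᵥ u) • (Pi.single i (u i)⁻¹ : Fin 3 → ℂ) = p
    · obtain ⟨z, hz0, hz⟩ : ∃ z : Fin 3 → ℂ, z ≠ 0 ∧ z ⬝ᵥ u = 0 := by
        by_cases h1 : u 0 = 0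
        · refine ⟨![1, 0, 0], ?_, ?_⟩
          · intro h
            have := congrFun h 0
            simp at this
          · rw [hdot]
            simp [h1]
        · refine ⟨![u 1, - u 0, 0], ?_, ?_⟩
          · intro h
            have := congrFun h 1
            simp at this
            exact h1 this
          · rw [hdot]
            simp
            ring
      have hc : p ⬝ᵥ u ≠ 0 := by
        intro h
        rw [h, zero_smul] at h0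
        exact hp h0.symm
      refine ⟨Pi.single i (u i)⁻¹ + z, ?_, ?_⟩
      · rw [add_dotProduct, hq0, hz, add_zero]
      · rw [smul_add, h0]
        intro h
        have h2 : (p ⬝ᵥ u) • z = 0 := by simpa using h
        exact hz0 ((smul_eq_zero.1 h2).resolve_left hc)
    · exact ⟨_, hq0, h0⟩
  obtain ⟨a, ha⟩ : ∃ a : Fin 3 → ℂ, ((p ⬝ᵥ u) • q - p) ⬝ᵥ a ≠ 0 := by
    obtain ⟨i, hi⟩ : ∃ i, ((p ⬝ᵥ u) • q - p) i ≠ 0 := by
      by_contra h
      push Not at h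
      exact hq2 (sub_eq_zero.1 (funext h))
    exact ⟨Pi.single i 1, by rw [dotProduct_single, mul_one]; exact hi⟩
  rw [sub_dotProduct, smul_dotProduct, smul_eq_mul] at ha
  refine ⟨Matrix.of ![p, q, ![u 1 * a 2 - u 2 * a 1, u 2 * a 0 - u 0 * a 2,
    u 0 * a 1 - u 1 * a 0]], ?_, rfl, ?_⟩
  · have hdet : (Matrix.of ![p, q, ![u 1 * a 2 - u 2 * a 1, u 2 * a 0 - u 0 * a 2,
        u 0 * a 1 - u 1 * a 0]]).det = (p ⬝ᵥ u) * (q ⬝ᵥ a) - (p ⬝ᵥ a) * (q ⬝ᵥ u) := by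
      rw [Matrix.det_fin_three, hdot, hdot, hdot, hdot]
      simp
      ring
    rw [hdet, hq1, mul_one]
    exact ha
  · ext j
    fin_cases j
    · rfl
    · exact hq1
    · show ![u 1 * a 2 - u 2 * a 1, u 2 * a 0 - u 0 * a 2, u 0 * a 1 - u 1 * a 0] ⬝ᵥ u = 0
      rw [hdot]
      simp
      ring

theorem s_SIM : S_SIM := by
  intro u p u' p' hu hp hu' hp' h
  obtain ⟨M, hM, hMp, hMu⟩ := norm_form u p hu hp
  obtain ⟨N, hN, hNp, hNu⟩ := norm_form u' p' hu' hp'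
  have hM' : IsUnit M.det := isUnit_iff_ne_zero.2 hM
  have hN' : IsUnit N.det := isUnit_iff_ne_zero.2 hN
  refine ⟨M⁻¹ * N, N⁻¹ * M, ?_, ?_, ?_⟩
  · rw [Matrix.mul_assoc, ← Matrix.mul_assoc N, Matrix.mul_nonsing_inv _ hN', Matrix.one_mul,
      Matrix.nonsing_inv_mul _ hM']
  · rw [Matrix.mul_assoc, ← Matrix.mul_assoc M, Matrix.mul_nonsing_inv _ hM', Matrix.one_mul,
      Matrix.nonsing_inv_mul _ hN']
  · have h1 : (N⁻¹ * M) *ᵥ u = u' := by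
      rw [← Matrix.mulVec_mulVec, hMu, h, ← hNu, Matrix.mulVec_mulVec,
        Matrix.nonsing_inv_mul _ hN', Matrix.one_mulVec]
    have h2 : p ᵥ* (M⁻¹ * N) = p' := by
      rw [← hMp, ← Matrix.mul_apply_eq_vecMul, ← Matrix.mul_assoc, Matrix.mul_nonsing_inv _ hM',
        Matrix.one_mul, hNp]
    rw [Matrix.mul_vecMulVec, Matrix.vecMulVec_mul, h1, h2]

end Pool.Agent.L7h60.SF
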