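import Pool.Agent.L7h4.SF.Stm

/-! Project SF (helper4, MP_2a1f98_al): part D3. -/

set_option autoImplicit false

namespace Pool.Agent.L7h60.SF

open Matrix Pool.Agent.L7h4.SF Pool.Agent.L7h4.F5

theorem det_rank_one (b : ℂ) (u p : Fin 3 → ℂ) :
    (b • (1 : Mat 3) + vecMulVec u p).det = b ^ 2 * (b + p ⬝ᵥ u) := by
  rw [Matrix.det_fin_three]
  simp [vecMulVec_apply, dotProduct, Fin.sum_univ_three]
  ring

theorem s_D3 (hR : S_RANK) (hS : S_SIM) (h1 : S_G1) (h2 : S_G2) (h3 : S_G3) (hG : S_GCJ) :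
    S_D3 := by
  intro A hdet hcyc hsc
  obtain ⟨b, u, p, hu, hp, rfl⟩ := hR A hcyc hsc
  have hd := det_rank_one b u p
  set x := (b • (1 : Mat 3) + vecMulVec u p).det with hx
  have hx2 : x ^ 2 = 1 := by
    rcases hdet with h | h <;> rw [h] <;> norm_num
  have hb : b ≠ 0 := by
    rintro rfl
    rw [hd] at hx2
    simp at hx2
  have key : ∀ u' p' : Fin 3 → ℂ, u' ≠ 0 → p' ≠ 0 → p' ⬝ᵥ u' = p ⬝ᵥ u →
      Good 4 (b • 1 + vecMulVec u' p') → Good 4 (b • 1 + vecMulVec u p) := by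
    intro u' p' hu' hp' hc hgood
    obtain ⟨P, P', hP1, hP2, hP3⟩ := hS u p u' p' hu hp hu' hp' hc.symm
    apply hG 3 4 _ P P' hP1 hP2
    have e : P' * (b • (1 : Mat 3) + vecMulVec u p) * P = b • 1 + vecMulVec u' p' := by
      rw [Matrix.mul_add, Matrix.add_mul, hP3, Matrix.mul_smul, Matrix.mul_one, Matrix.smul_mul,
        hP2]
    rw [e]
    exact hgood
  by_cases hb2 : b ^ 2 = 1
  · have hc : p ⬝ᵥ u = x - b := by
      rw [hd, hb2]
      ring
    have hxb : (x - b) * (x + b) = 0 := by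
      have : (x - b) * (x + b) = x ^ 2 - b ^ 2 := by ring
      rw [this, hx2, hb2, sub_self]
    rcases mul_eq_zero.1 hxb with h | h
    · obtain ⟨u', p', hu', hp', hc', hgood⟩ := h2 b hb2
      exact key u' p' hu' hp' (by rw [hc', hc, h]) hgood
    · obtain ⟨u', p', hu', hp', hc', hgood⟩ := h3 b hb2
      refine key u' p' hu' hp' ?_ hgood
      rw [hc', hc]
      linear_combination -h
  · obtain ⟨u', p', hu', hp', hc', hgood⟩ := h1 b x hb hb2 hx2
    refine key u' p' hu' hp' ?_ hgood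
    rw [hc', hd]
    field_simp
    ring

end Pool.Agent.L7h60.SF
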